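import Pool.Agent.H143R3.BT.Stmts

set_option autoImplicit false

namespace Pool.Agent.H920R3.BT.Gibbs

open MeasureTheory ProbabilityTheory Filter Topology
open scoped ENNReal NNReal
open Pool.Agent.H143R3.BT

universe u

theorem taskGibbs : TaskGibbs.{u} := by
  intro Ω _ P _ I B hI hI0 hB hZ
  set f : Ω → ℝ := fun ω => Real.exp (-(I ω)) with hf
  have hfm : Measurable f := (hI.neg).exp
  have hf1 : ∀ᵐ ω ∂P, ‖f ω‖ ≤ 1 := by
    filter_upwards [hI0] with ω hω
    rw [Real.norm_eq_abs, abs_of_pos (Real.exp_pos _)]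
    exact Real.exp_le_one_iff.2 (by linarith)
  have hfint : Integrable f P := Integrable.of_bound hfm.aestronglyMeasurable 1 hf1
  set Z : ℝ := ∫ ω, f ω ∂P with hZdef
  have hfZ : ∫⁻ ω, ENNReal.ofReal (f ω) ∂P = ENNReal.ofReal Z :=
    (ofReal_integral_eq_lintegral_ofReal hfint (ae_of_all _ fun ω => (Real.exp_pos _).le)).symm
  have hZ0 : 0 ≤ Z := integral_nonneg fun ω => (Real.exp_pos _).le
  have hZB : Real.exp (-B) ≤ Z := by
    have h1 : ENNReal.ofReal (Real.exp (-B)) ≤ ENNReal.ofReal Z := by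
      rw [← hfZ]; exact hZ
    exact (ENNReal.ofReal_le_ofReal_iff hZ0).1 h1
  have hZpos : 0 < Z := lt_of_lt_of_le (Real.exp_pos _) hZB
  have hlog : -Real.log Z ≤ B := by
    have h1 := Real.log_le_log (Real.exp_pos _) hZB
    rw [Real.log_exp] at h1
    linarith
  have hpt : ∀ ω, f ω * I ω ≤ Z - f ω + f ω * B := by
    intro ω
    have hfp : 0 < f ω := Real.exp_pos _
    have h1 : Real.log (Z / f ω) ≤ Z / f ω - 1 := Real.log_le_sub_one_of_pos (by positivity)
    have h2 : Real.log (Z / f ω) = Real.log Z + I ω := by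
      rw [Real.log_div hZpos.ne' hfp.ne']
      simp only [hf]
      rw [Real.log_exp]
      ring
    rw [h2] at h1
    have h3 := mul_le_mul_of_nonneg_left h1 hfp.le
    have h4 : f ω * (Z / f ω - 1) = Z - f ω := by field_simp
    rw [h4] at h3
    have h5 := mul_le_mul_of_nonneg_left hlog hfp.le
    linarith
  have hgm : Measurable fun ω => f ω * I ω := hfm.mul hI
  have hgint : Integrable (fun ω => f ω * I ω) P := by
    have h1 : Integrable (fun ω => Z - f ω + f ω * B) P :=
      ((integrable_const Z).sub hfint).add (hfint.mul_const B)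
    refine h1.mono' hgm.aestronglyMeasurable ?_
    filter_upwards [hI0] with ω hω
    rw [Real.norm_eq_abs, abs_of_nonneg (mul_nonneg (Real.exp_pos _).le hω)]
    exact hpt ω
  have hg0 : ∀ᵐ ω ∂P, 0 ≤ f ω * I ω := by
    filter_upwards [hI0] with ω hω
    exact mul_nonneg (Real.exp_pos _).le hω
  have hmain : ∫ ω, f ω * I ω ∂P ≤ B * Z := by
    have h1 : ∫ ω, (Z - f ω + f ω * B) ∂P = B * Z := by
      have e1 : Integrable (fun ω => Z - f ω) P := (integrable_const Z).sub hfint
      have e2 : Integrable (fun ω => f ω * B) P := hfint.mul_const B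
      rw [integral_add e1 e2, integral_sub (integrable_const Z) hfint, integral_mul_const,
        integral_const, ← hZdef]
      simp
      ring
    rw [← h1]
    exact integral_mono hgint (((integrable_const Z).sub hfint).add (hfint.mul_const B)) hpt
  calc ∫⁻ ω, ENNReal.ofReal (Real.exp (-(I ω))) * ENNReal.ofReal (I ω) ∂P
      = ∫⁻ ω, ENNReal.ofReal (f ω * I ω) ∂P := by
        apply lintegral_congr
        intro ω
        rw [ENNReal.ofReal_mul (Real.exp_pos _).le]
    _ = ENNReal.ofReal (∫ ω, f ω * I ω ∂P) := (ofReal_integral_eq_lintegral_ofReal hgint hg0).symm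
    _ ≤ ENNReal.ofReal (B * Z) := ENNReal.ofReal_le_ofReal hmain
    _ = ENNReal.ofReal B * ∫⁻ ω, ENNReal.ofReal (Real.exp (-(I ω))) ∂P := by
        rw [ENNReal.ofReal_mul hB, ← hfZ]

end Pool.Agent.H920R3.BT.Gibbs
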